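import Pool.Agent.Q49.CO.Main2

set_option autoImplicit false

/-! # The local motivic monodromy conjecture for `∑ y_j f_j(x)`, the `f_j` being forms of one degree
which define a projective scheme smooth outside finitely many points

Let `f_j` be forms of the same degree `d > 0` in `x₀, …, xₙ`, of which `n + 1` are algebraically
independent, and let `Y ⊆ ℙ ^ n` be the scheme which they define. Suppose that `Y` is smooth outside a
finite set `Q` of points, and that for `q ∈ Q` the ideal of the germ of `Y` at `q` (in `n` variables)
satisfies the strong motivic monodromy conjecture (for example `Q` is empty). Then the hypersurface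
`F = ∑ y_j f_j(x)` in the variables `y_j` and `x_i` satisfies the motivic monodromy conjecture at the
origin: the naive local motivic zeta function of `F`, defined with jets, lies in the ring generated
over `𝓜` by `T` and the `1 / (1 - 𝕃 ^ a T ^ b)`, where `(a, b)` is `(-1, 1)`, `(-(n + 1), d)`,
`(-c, 1)`, `c` the codimension of `Y` at one of its smooth points, or a pair of one of the germs;
and all these `a / b` are roots of the local Bernstein-Sato polynomial of `F` at the origin, so that,
by the theorem of Malgrange and Kashiwara, the `exp (2 π i a / b)` are monodromy eigenvalues of `F`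
at points arbitrarily close to the origin.

The singular locus of `F` contains the spaces `x = 0` and `y = 0` and is not isolated; there is no
condition on the degree, the number of variables, or on the geometry of `Y`, for example on its
dimension or its number of components.

The proof. For an arc `x(t)` through the origin on which the ideal `(f_j)` has the order `k`, the arcs
`y(t)` through the origin with `F(x(t), y(t)) = c t ^ N + ⋯` are given by `N - k` independent linear
conditions; this computes the zeta function of `F` from the one of the ideal. The zeta function of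
the ideal of the cone is computed from the arcs with origin `≠ 0` by scaling; at the smooth points one
counts jets level by level, and on the line of a point `q ∈ Q` one has the germ at `q`. Roots: the
pairs `(-(n + 1), d)` and `(-c, 1)` belong to Rees divisors of the ideal; a functional equation of
`F` gives one of the ideal, and, as the `f_j` are homogeneous, one of the germ at `q`. -/

namespace Pool.Agent.Results.MP_9321be_ag.FormsOverConesLocal

open MvPolynomial Pool.Agent.Q49.CO
open Pool.Agent.W428.MOT (ratRing)
open Pool.Agent.TH192.MT (zetaO)
open Pool.Agent.W574.HS (univ)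
open Pool.Agent.H628R4.TP (IsLocalBFunction)

/-- **The local motivic monodromy conjecture for `F = ∑ y_j f_j(x)`.** Let `f_j` be forms of degree
`d > 0` in `x₀, …, xₙ`, such that the Jacobian determinant of some `n + 1` of them is not zero.
Suppose that at every point `p ≠ 0` with `f_j(p) = 0` for all `j`, the scheme defined by the `f_j` is
smooth (`SmoothAt f c p`), or `p = p₀ (1, q)` with `p₀ ≠ 0` and `q` in a finite set `Q`, and that for
`q ∈ Q` the ideal generated by the `f_j(1, q + y)` (`germ`) satisfies the strong motivic monodromy
conjecture with the finite set `T q` of pairs (`StrongMC`). Let `S` be the set of the pairs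
`(-1, 1)`, `(-(n + 1), d)`, `(-c, 1)` for the codimensions `c` at the smooth points `p ≠ 0`, and of
the pairs in the `T q` (`hypPairs (conePairs d C Q T)`). Then the local motivic zeta function
`zetaO (univ f)` of `F = univ f` at the origin lies in the subring of `𝓜⟦T⟧` generated over `𝓜` by
`T` and the `1 / (1 - 𝕃 ^ a T ^ b)`, `(a, b) ∈ S`, and for `(a, b) ∈ S` one has `a < 0 < b` and
`a / b` is a root of every polynomial which satisfies a functional equation of `F` with operators
with formal power series coefficients at the origin. -/
theorem result {n : ℕ} {J : Type} [Fintype J] (f : J → MvPolynomial (Fin (n + 1)) ℂ) (d : ℕ)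
    (hd : 0 < d) (hf : ∀ j, (f j).IsHomogeneous d)
    (hg : ∃ e : Fin (n + 1) → J, (Matrix.of fun s t => pderiv s (f (e t))).det ≠ 0)
    (Q : Finset (Fin n → ℂ)) (T : (Fin n → ℂ) → Finset (ℤ × ℤ))
    (hT : ∀ q ∈ Q, StrongMC (fun j => germ q (f j)) (T q))
    (h : ∀ p : Fin (n + 1) → ℂ, p ≠ 0 → (∀ j, eval p (f j) = 0) → (∃ c, SmoothAt f c p) ∨
      ∃ q ∈ Q, p 0 ≠ 0 ∧ ∀ i : Fin n, p i.succ = p 0 * q i)
    (C : Finset ℕ) (hC : ∀ c, c ∈ C ↔ ∃ p, p ≠ 0 ∧ SmoothAt f c p) :
    (∀ q ∈ hypPairs (conePairs d C Q T), q.1 < 0 ∧ 0 < q.2 ∧
      ∀ b, IsLocalBFunction (univ f) b → b.eval ((q.1 : ℂ) / q.2) = 0) ∧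
    zetaO (univ f) ∈ ratRing ℂ (hypPairs (conePairs d C Q T) : Set (ℤ × ℤ)) := by
  obtain ⟨h1, h2⟩ := hyp_origin f d hd hf hg Q T hT h C hC
  exact ⟨fun q hq => ⟨(h1 q hq).1, (h1 q hq).2.1, (h1 q hq).2.2.2⟩, h2⟩

end Pool.Agent.Results.MP_9321be_ag.FormsOverConesLocal
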