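import Pool.Agent.Q223.TW.OrgRed

/-!
# The motivic monodromy conjecture at the origin: signs, poles, and reduction to trilinear polynomials

**Signs and poles.** If a power series `Z` over `𝓜` (which may have zero divisors) is in the ring
`𝓜[T, 1 / (1 - 𝕃 ^ a T ^ d)]` for the pairs `(a, d)` of a set `S₁`, and for the pairs of a set `S₂`, then
it is in this ring for the pairs of `S₁` whose slope `a / d` is also a slope of `S₂`, together with one
pair `(-D, D)`. (In a prime ideal of `𝓜[T]` which contains `1 - 𝕃 ^ a T ^ d` and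
`1 - 𝕃 ^ a' T ^ d'` with `a / d ≠ a' / d'`, `𝕃` and `T` are roots of unity.) As `-1` is a root of the
Bernstein-Sato polynomial, one can therefore use the theorem of Denef and Loeser (pairs with `a < 0`) and
Q1 without the condition `a < 0` together, and Q1 is a property of the poles of the zeta function.

**Programs.** A *program* consists of a forest on the nodes `0, …, κ - 1` (`o m` is the parent of the node
`m`, and comes before `m`; `o m = none` for the roots), of a label `v m ∈ {1, …, n}` for every node and of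
a coefficient `c m` for every node. Its polynomial is

`F = ∑_m c_m z_(o m) x_(v m) + ∑_m y_m (z_m - z_(o m) x_(v m))`  (with `z_none = 1`),

which is linear in each of the three groups of variables `x`, `y`, `z`. Horner's scheme of `f` along a
forest gives an automorphism of the polynomial ring which fixes the origin and takes
`f(x) + ∑ y_m z_m` to `F`. The local motivic zeta functions at the origin of `f` with `j` planes `y z`
added, with `T ↦ 𝕃^j T` and the factor `1 - 𝕃⁻¹ T`, satisfy a linear recursion with constant coefficients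
and the characteristic roots `𝕃`, `𝕃 ^ 2`, which has no denominators, and the addition of a plane shifts
the roots of the local `b_f(s) / (s + 1)` by `-1`.
-/

set_option autoImplicit false

namespace Pool.Agent.Results.MP_9321be_ag.TrilinearReductionOrigin

open MvPolynomial Pool.Agent.Q223.MM Pool.Agent.Q223.TW
open Pool.Agent.H628R4.TP (IsLocalBFunction)
open Pool.Agent.TH192.MT (zetaO)
open Pool.Agent.W375.MG (IsPole)

/-- **The motivic monodromy conjecture at the origin is equivalent to its case of the trilinear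
polynomials of programs with minimal exponent larger than `N`.**

`zetaO f` is the local motivic zeta function `Z_{mot,0,f}(T)` of the problem. `IsLocalBFunction f b`:
`b(s) f ^ s = P(s) f ^ (s + 1)` for a differential operator `P(s)` with formal power series coefficients,
for instance for `b` the local Bernstein-Sato polynomial `b_{f,0}`, whose roots `α` give the monodromy
eigenvalues `exp(2 π i α)` of `f` near the origin (Malgrange and Kashiwara).
`SignML f` (Q1 for `f`): for every such `b ≠ 0` there is a finite set `S` of pairs `(a, d)`, `a < 0 < d`, with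
`zetaO f ∈ 𝓜[T, 1 / (1 - 𝕃 ^ a T ^ d)]_{(a, d) ∈ S}` such that for `(a, d) ∈ S` there is `j ∈ ℤ` with
`b(a / d + j) = 0`. `WeakML f`: the same without `a < 0`. `RatML f` (theorem of Denef and Loeser):
`zetaO f` is in the ring generated by `T` and the `1 / (1 - 𝕃 ^ a T ^ d)`, `a < 0 < d`.
`MinExpL N F`: there is `c ≠ 0` such that `(s + 1) c(s)` satisfies such a local functional equation for `F`,
and the roots of `c` have real part `< -N`; so the minimal exponent of `F` at `0` is larger than `N`.
`Forest o`: `o m = some m'` implies `m' < m`. `progL o v c` is the polynomial of the program.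
`t ∈ coeffs S`: `t = 0` or `t ∈ S` or `-t ∈ S`.

First part: for every `f` and `N` there are programs with `κ`, `κ + 1`, `κ + 2`, … nodes, whose
polynomials `F_j` have minimal exponent larger than `N`, such that the conjecture `WeakML` for two
consecutive `F_j` implies the one for `f`.
Second part: the equivalence for `WeakML`.
Third part: if `f` satisfies the theorem of Denef and Loeser, `SignML f` and `WeakML f` are equivalent, and
they say that for every pole `s` of `zetaO f` there is `j ∈ ℤ` with `b(s + j) = 0`. `IsPole Z s`: `Z` is not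
in the ring generated by `T` and the `1 / (1 - 𝕃 ^ a T ^ d)`, `d > 0`, `a / d ≠ s`.
Fourth part: the equivalence for Q1, if the theorem of Denef and Loeser holds. -/
theorem result (S : Set ℂ) (hS : (1 : ℂ) ∈ AddSubgroup.closure S) (N : ℕ) :
    (∀ (n : ℕ) (f : MvPolynomial (Fin n) ℂ), f ≠ 0 → coeff 0 f = 0 →
      (∀ d, coeff d f ∈ AddSubgroup.closure S) →
      ∃ κ : ℕ, 0 < κ ∧ ∃ (o : ∀ j : ℕ, Fin (κ + j) → Option (Fin (κ + j)))
        (v : ∀ j : ℕ, Fin (κ + j) → Fin n) (c : ∀ j : ℕ, Fin (κ + j) → ℂ),
        (∀ j, Forest (o j) ∧ (∀ m, c j m ∈ coeffs S) ∧ MinExpL N (progL (o j) (v j) (c j))) ∧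
        ∀ j, WeakML (progL (o j) (v j) (c j)) →
          WeakML (progL (o (j + 1)) (v (j + 1)) (c (j + 1))) → WeakML f) ∧
    ((∀ (n : ℕ) (f : MvPolynomial (Fin n) ℂ), f ≠ 0 → coeff 0 f = 0 →
        (∀ d, coeff d f ∈ AddSubgroup.closure S) → WeakML f) ↔
      ∀ (n κ : ℕ) (o : Fin κ → Option (Fin κ)) (v : Fin κ → Fin n) (c : Fin κ → ℂ), 0 < κ →
        Forest o → (∀ m, c m ∈ coeffs S) → MinExpL N (progL o v c) → WeakML (progL o v c)) ∧
    (∀ (n : ℕ) (f : MvPolynomial (Fin n) ℂ), f ≠ 0 → coeff 0 f = 0 → RatML f →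
      (SignML f ↔ WeakML f) ∧
      (SignML f ↔ ∀ s : ℚ, IsPole (zetaO f) s → ∀ b : Polynomial ℂ, b ≠ 0 →
        IsLocalBFunction f b → ∃ j : ℤ, b.eval ((s : ℂ) + j) = 0)) ∧
    ((∀ (n : ℕ) (f : MvPolynomial (Fin n) ℂ), f ≠ 0 → coeff 0 f = 0 → RatML f) →
      ((∀ (n : ℕ) (f : MvPolynomial (Fin n) ℂ), f ≠ 0 → coeff 0 f = 0 →
        (∀ d, coeff d f ∈ AddSubgroup.closure S) → SignML f) ↔
      ∀ (n κ : ℕ) (o : Fin κ → Option (Fin κ)) (v : Fin κ → Fin n) (c : Fin κ → ℂ), 0 < κ →
        Forest o → (∀ m, c m ∈ coeffs S) → MinExpL N (progL o v c) →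
        SignML (progL o v c))) := by
  have key : (∀ (n : ℕ) (f : MvPolynomial (Fin n) ℂ), f ≠ 0 → coeff 0 f = 0 →
      (∀ d, coeff d f ∈ AddSubgroup.closure S) → WeakML f) ↔
      ∀ (n κ : ℕ) (o : Fin κ → Option (Fin κ)) (v : Fin κ → Fin n) (c : Fin κ → ℂ), 0 < κ →
        Forest o → (∀ m, c m ∈ coeffs S) → MinExpL N (progL o v c) → WeakML (progL o v c) := by
    constructor
    · intro h n κ o v c hκ _ hc _
      exact h _ (progL o v c) (progL_ne o v c hκ) (progL_zero o v c)
        fun d => progL_coeff hS o v c hc d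
    · intro h n f hf h0 hfS
      obtain ⟨κ, hκ, o, v, c, h1, h2⟩ := reduceO S hS N n f hf h0 hfS
      exact h2 0 (h n (κ + 0) (o 0) (v 0) (c 0) (by omega) (h1 0).1 (h1 0).2.1 (h1 0).2.2)
        (h n (κ + 1) (o 1) (v 1) (c 1) (by omega) (h1 1).1 (h1 1).2.1 (h1 1).2.2)
  refine ⟨fun n f hf h0 hfS => reduceO S hS N n f hf h0 hfS, key,
    fun n f hf h0 hr => ⟨sign_iff hf h0 hr, weak_iff_poles hf h0 hr⟩, fun hrat => ?_⟩
  have h1 : (∀ (n : ℕ) (f : MvPolynomial (Fin n) ℂ), f ≠ 0 → coeff 0 f = 0 →
      (∀ d, coeff d f ∈ AddSubgroup.closure S) → SignML f) ↔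
      ∀ (n : ℕ) (f : MvPolynomial (Fin n) ℂ), f ≠ 0 → coeff 0 f = 0 →
        (∀ d, coeff d f ∈ AddSubgroup.closure S) → WeakML f :=
    ⟨fun h n f hf h0 hfS => (sign_iff hf h0 (hrat n f hf h0)).1 (h n f hf h0 hfS),
      fun h n f hf h0 hfS => (sign_iff hf h0 (hrat n f hf h0)).2 (h n f hf h0 hfS)⟩
  rw [h1, key]
  refine ⟨fun h n κ o v c hκ ho hc hm => ?_, fun h n κ o v c hκ ho hc hm => ?_⟩
  · exact (sign_iff (progL_ne o v c hκ) (progL_zero o v c)
      (hrat _ _ (progL_ne o v c hκ) (progL_zero o v c))).2 (h n κ o v c hκ ho hc hm)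
  · exact (sign_iff (progL_ne o v c hκ) (progL_zero o v c)
      (hrat _ _ (progL_ne o v c hκ) (progL_zero o v c))).1 (h n κ o v c hκ ho hc hm)

end Pool.Agent.Results.MP_9321be_ag.TrilinearReductionOrigin
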