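import Pool.Agent.Q42.CU.Loc

/-!
# The motivic monodromy conjecture at the origin: reduction to sums of cubes over triple systems

A *triple system* over a field `k ⊂ ℂ` consists of subsets `E_1, …, E_r` of `{1, …, m}` with three
elements or with one element and of constants `c_1, …, c_r` in `k`, where `c_j = 0` if `E_j` has three
elements. Its polynomial is

`Φ = (z_1 ^ 3 + ⋯ + z_m ^ 3) / 24 + ∑_j y_j (∑_{i ∈ E_j} z_i - c_j)`.

Every germ at the origin of a polynomial `f ∈ k[x_1, …, x_n]`, `f(0) = 0`, is stably equivalent to the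
germ of such a hypersurface `Φ = 0` at a point `p` with coordinates in `k`: for all large `κ` there is an
isomorphism of polynomial rings over `k` which fixes the origin and takes
`f + u_1 v_1 + ⋯ + u_κ v_κ` to `Φ(p + (z, y))`. If `k` is spanned by the set `S ∋ 1` as a vector space over
`ℚ`, the `c_j ≠ 0` can be taken to be different elements of `S`; so for `k = ℚ` there is one constant `1`
and all others are `0`, that is, `Φ` is given by a 3-uniform hypergraph with some marked vertices. We
deduce that Q1 for the germs of all polynomials over `k` is equivalent to its case of the germs of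
the hypersurfaces `Φ = 0` at their `k`-rational points, and that only the germs with minimal exponent
larger than any given `N` have to be considered. This is unconditional for the form of Q1 without
signs; for Q1 itself the theorem of Denef and Loeser on the rationality of the zeta function is used
(as a hypothesis). This is the analogue of Drużkowski's theorem on the Jacobian conjecture.

Method. Horner's scheme of `f` along a forest (our hand-in TrilinearReductionOrigin) makes `f`
trilinear. The products of three variables or constants are sums of cubes of linear forms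
`± a ± b ± c`; every linear form which occurs is computed step by step, each step being an equation
`z + z' + z'' = 0`, and the cubes of the auxiliary forms are cancelled by the cubes of their negatives.
The equations have an invertible (unitriangular) matrix, and so an automorphism takes `f + ∑ u_m v_m` to
`Φ`; the variables `y_j` are the Lagrange multipliers of the equations. Constants are moved by
`(u + 1) (v - a) = u v - a u + v - a`, and denominators are removed by `x_i ↦ D x_i`. The relation between
the zeta functions of `f` and `f + u v` is the one of TrilinearReductionOrigin; it is used for two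
consecutive numbers of planes.
-/

set_option autoImplicit false

namespace Pool.Agent.Results.MP_9321be_ag.TripleSystems

open MvPolynomial Pool.Agent.Q223.MM Pool.Agent.Q223.TW Pool.Agent.Q42.CU
open Pool.Agent.H628R4.TP (IsLocalBFunction)

/-- **The motivic monodromy conjecture at the origin for polynomials over `k` is equivalent to its case
of the germs of the polynomials of triple systems with minimal exponent larger than `N`.**

`Phi 24⁻¹ E c` is the polynomial `(∑ z_i ^ 3) / 24 + ∑_j y_j (∑_{i ∈ E j} z_i - c j)`, and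
`tra p F = F(x + p)`. `IsTriple S E c`: every `E j` has three elements and `c j = 0`, or one element and
`c j = 0` or `c j ∈ S`; and the `c j` which are not zero are different. `StEqO f κ F`: `F` has `n + 2 κ`
variables and an isomorphism of polynomial rings which fixes the origin takes `f + ∑_{m < κ} u_m v_m` to
`F`.

`IsLocalBFunction f b`: `b(s) f ^ s = P(s) f ^ (s + 1)` for a differential operator `P(s)` with formal
power series coefficients, for instance for `b` the local Bernstein-Sato polynomial, whose roots `α`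
give the monodromy eigenvalues `exp(2 π i α)` of `f` near the origin (Malgrange and Kashiwara).
`SignML f` (Q1 for `f`): for every such `b ≠ 0` there is a finite set `S` of pairs `(a, d)`, `a < 0 < d`,
such that the local motivic zeta function `Z_{mot,0,f}(T)` is in `𝓜[T, 1 / (1 - 𝕃 ^ a T ^ d)]_{(a, d) ∈ S}`
and for `(a, d) ∈ S` there is `j ∈ ℤ` with `b(a / d + j) = 0`. `WeakML f`: the same without `a < 0`.
`RatML f` (theorem of Denef and Loeser): `Z_{mot,0,f}(T)` is in the ring generated by `T` and the
`1 / (1 - 𝕃 ^ a T ^ d)`, `a < 0 < d`.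
`MinExpL N F`: there is `c ≠ 0` such that `(s + 1) c(s)` satisfies such a local functional equation for `F`,
and the roots of `c` have real part `< -N`; so the minimal exponent of `F` at `0` is larger than `N`.

First part: the germ of `f` is stably equivalent to the germs of the polynomials of triple systems at
`k`-rational points of their zero sets, for all large numbers `κ` of planes; they have minimal
exponent larger than `N` (as `f` has a local Bernstein-Sato polynomial), and `WeakML` for two
of them (`κ`, `κ + 1`) implies `WeakML f`.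
Second part: the equivalence for `WeakML`. For `k = ℂ`, `S = Set.univ` it is about the germs of all
polynomials, for `k = ℚ`, `S = {1}` about the germs at the origin of the polynomials with rational
coefficients.
Third part: the equivalence for Q1, if the theorem of Denef and Loeser holds. -/
theorem result (k : Type) [Field k] [CharZero k] [Algebra k ℂ] (S : Set k) (hS : (1 : k) ∈ S)
    (hk : Submodule.span ℚ S = ⊤) (N : ℕ) :
    (∀ (n : ℕ) (f : MvPolynomial (Fin n) k), f ≠ 0 → coeff 0 f = 0 →
      ∃ κ₁ : ℕ, ∀ κ, κ₁ ≤ κ → ∃ (m r : ℕ → ℕ) (E : ∀ j, Fin (r j) → Finset (Fin (m j)))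
        (c : ∀ j, Fin (r j) → k) (p : ∀ j, Fin (m j + r j) → k),
        (∀ j, 0 < m j ∧ IsTriple S (E j) (c j) ∧ eval (p j) (Phi 24⁻¹ (E j) (c j)) = 0 ∧
          StEqO f (κ + j) (tra (p j) (Phi 24⁻¹ (E j) (c j))) ∧
          ((∃ b : Polynomial ℂ, b ≠ 0 ∧ IsLocalBFunction (map (algebraMap k ℂ) f) b) →
            MinExpL N (map (algebraMap k ℂ) (tra (p j) (Phi 24⁻¹ (E j) (c j)))))) ∧
        (WeakML (map (algebraMap k ℂ) (tra (p 0) (Phi 24⁻¹ (E 0) (c 0)))) →
          WeakML (map (algebraMap k ℂ) (tra (p 1) (Phi 24⁻¹ (E 1) (c 1)))) →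
            WeakML (map (algebraMap k ℂ) f))) ∧
    ((∀ (n : ℕ) (f : MvPolynomial (Fin n) k), f ≠ 0 → coeff 0 f = 0 →
        WeakML (map (algebraMap k ℂ) f)) ↔
      ∀ (m r : ℕ) (E : Fin r → Finset (Fin m)) (c : Fin r → k) (p : Fin (m + r) → k), 0 < m →
        IsTriple S E c → eval p (Phi 24⁻¹ E c) = 0 →
        MinExpL N (map (algebraMap k ℂ) (tra p (Phi 24⁻¹ E c))) →
        WeakML (map (algebraMap k ℂ) (tra p (Phi 24⁻¹ E c)))) ∧
    ((∀ (n : ℕ) (f : MvPolynomial (Fin n) ℂ), f ≠ 0 → coeff 0 f = 0 → RatML f) →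
      ((∀ (n : ℕ) (f : MvPolynomial (Fin n) k), f ≠ 0 → coeff 0 f = 0 →
        SignML (map (algebraMap k ℂ) f)) ↔
      ∀ (m r : ℕ) (E : Fin r → Finset (Fin m)) (c : Fin r → k) (p : Fin (m + r) → k), 0 < m →
        IsTriple S E c → eval p (Phi 24⁻¹ E c) = 0 →
        MinExpL N (map (algebraMap k ℂ) (tra p (Phi 24⁻¹ E c))) →
        SignML (map (algebraMap k ℂ) (tra p (Phi 24⁻¹ E c))))) := by
  have hne : ∀ {n : ℕ} {f : MvPolynomial (Fin n) k}, f ≠ 0 → map (algebraMap k ℂ) f ≠ 0 :=
    fun hf h => hf (map_injective _ (algebraMap k ℂ).injective (h.trans (map_zero _).symm))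
  have hcc : ∀ {n : ℕ} {f : MvPolynomial (Fin n) k}, coeff 0 f = 0 →
      coeff 0 (map (algebraMap k ℂ) f) = 0 := fun h0 => by rw [coeff_map, h0, map_zero]
  have key : ∀ (n : ℕ) (f : MvPolynomial (Fin n) k), f ≠ 0 → coeff 0 f = 0 →
      ∃ κ₁ : ℕ, ∀ κ, κ₁ ≤ κ → ∃ (m r : ℕ → ℕ) (E : ∀ j, Fin (r j) → Finset (Fin (m j)))
        (c : ∀ j, Fin (r j) → k) (p : ∀ j, Fin (m j + r j) → k),
        (∀ j, 0 < m j ∧ IsTriple S (E j) (c j) ∧ eval (p j) (Phi 24⁻¹ (E j) (c j)) = 0 ∧
          StEqO f (κ + j) (tra (p j) (Phi 24⁻¹ (E j) (c j))) ∧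
          ((∃ b : Polynomial ℂ, b ≠ 0 ∧ IsLocalBFunction (map (algebraMap k ℂ) f) b) →
            MinExpL N (map (algebraMap k ℂ) (tra (p j) (Phi 24⁻¹ (E j) (c j)))))) ∧
        (WeakML (map (algebraMap k ℂ) (tra (p 0) (Phi 24⁻¹ (E 0) (c 0)))) →
          WeakML (map (algebraMap k ℂ) (tra (p 1) (Phi 24⁻¹ (E 1) (c 1)))) →
            WeakML (map (algebraMap k ℂ) f)) := by
    intro n f hf h0
    obtain ⟨κ₁, h⟩ := exists_phisL S hS N n f hf h0 fun d => by
      rw [hk]
      exact Submodule.mem_top
    refine ⟨κ₁, fun κ hκ => ?_⟩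
    choose m r E c p h1 using fun j : ℕ => h (κ + j) (hκ.trans (Nat.le_add_right κ j))
    refine ⟨m, r, E, c, p, h1, fun h2 h3 => ?_⟩
    exact StEqO.locM (h1 0).2.2.2.1.map (h1 1).2.2.2.1.map (hne hf) (hcc h0) h2 h3
  have key2 : (∀ (n : ℕ) (f : MvPolynomial (Fin n) k), f ≠ 0 → coeff 0 f = 0 →
        WeakML (map (algebraMap k ℂ) f)) ↔
      ∀ (m r : ℕ) (E : Fin r → Finset (Fin m)) (c : Fin r → k) (p : Fin (m + r) → k), 0 < m →
        IsTriple S E c → eval p (Phi 24⁻¹ E c) = 0 →
        MinExpL N (map (algebraMap k ℂ) (tra p (Phi 24⁻¹ E c))) →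
        WeakML (map (algebraMap k ℂ) (tra p (Phi 24⁻¹ E c))) := by
    constructor
    · intro h m r E c p hm hc hp _
      exact h _ _ (tra_ne hm E c p) (tra_cc hp)
    · intro h n f hf h0
      by_cases hb : ∃ b : Polynomial ℂ, b ≠ 0 ∧ IsLocalBFunction (map (algebraMap k ℂ) f) b
      · obtain ⟨κ₁, h3⟩ := key n f hf h0
        obtain ⟨m, r, E, c, p, h4, h5⟩ := h3 κ₁ le_rfl
        exact h5 (h _ _ _ _ _ (h4 0).1 (h4 0).2.1 (h4 0).2.2.1 ((h4 0).2.2.2.2 hb))
          (h _ _ _ _ _ (h4 1).1 (h4 1).2.1 (h4 1).2.2.1 ((h4 1).2.2.2.2 hb))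
      · intro b hb0 hb'
        exact absurd ⟨b, hb0, hb'⟩ hb
  refine ⟨key, key2, fun hrat => ?_⟩
  have h1 : (∀ (n : ℕ) (f : MvPolynomial (Fin n) k), f ≠ 0 → coeff 0 f = 0 →
      SignML (map (algebraMap k ℂ) f)) ↔
      ∀ (n : ℕ) (f : MvPolynomial (Fin n) k), f ≠ 0 → coeff 0 f = 0 →
        WeakML (map (algebraMap k ℂ) f) :=
    ⟨fun h n f hf h0 => (sign_iff (hne hf) (hcc h0) (hrat _ _ (hne hf) (hcc h0))).1 (h n f hf h0),
      fun h n f hf h0 => (sign_iff (hne hf) (hcc h0) (hrat _ _ (hne hf) (hcc h0))).2 (h n f hf h0)⟩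
  rw [h1, key2]
  refine ⟨fun h m r E c p hm hc hp hme => ?_, fun h m r E c p hm hc hp hme => ?_⟩
  · exact (sign_iff (hne (tra_ne hm E c p)) (hcc (tra_cc hp))
      (hrat _ _ (hne (tra_ne hm E c p)) (hcc (tra_cc hp)))).2 (h m r E c p hm hc hp hme)
  · exact (sign_iff (hne (tra_ne hm E c p)) (hcc (tra_cc hp))
      (hrat _ _ (hne (tra_ne hm E c p)) (hcc (tra_cc hp)))).1 (h m r E c p hm hc hp hme)

end Pool.Agent.Results.MP_9321be_ag.TripleSystems
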